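import Pool.Agent.Results.MP_3f635c_an.NotAlgebra

/-!
# No nonlinear polynomial operates on the symbol space `ST(X)`

The definitions `disc`, `Admissible`, `rieszProj`, `toeplitz`, `ST` are those of
`Pool.Agent.Results.MP_3f635c_an.NotAlgebra`.
-/

set_option autoImplicit false

open MeasureTheory AddCircle

namespace Pool.Agent.Results.MP_3f635c_an.NoPolynomialOperates

open Pool.Agent.Results.MP_3f635c_an.NotAlgebra

/-! ### linearity of the Toeplitz operator in the symbol -/

lemma memLp_cont {F : UnitAddCircle → ℂ} (hF : Continuous F) : MemLp F ⊤ haarAddCircle := by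
  obtain ⟨C, hC⟩ := (isCompact_range hF).isBounded.exists_norm_le
  exact memLp_top_of_bound hF.aestronglyMeasurable C
    (Filter.Eventually.of_forall (fun θ => hC _ ⟨θ, rfl⟩))

lemma memLp_mul {F G : UnitAddCircle → ℂ} (hF : MemLp F ⊤ haarAddCircle)
    (hG : MemLp G ⊤ haarAddCircle) : MemLp (fun θ => F θ * G θ) ⊤ haarAddCircle :=
  hG.mul hF

lemma integrable_top {F : UnitAddCircle → ℂ} (hF : MemLp F ⊤ haarAddCircle) :
    Integrable F haarAddCircle :=
  memLp_one_iff_integrable.1 (hF.mono_exponent le_top)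

lemma bdry_cont (p : Polynomial ℂ) :
    Continuous (fun θ : UnitAddCircle => p.eval (fourier 1 θ : ℂ)) :=
  p.continuous.comp (fourier 1).continuous

lemma coeff_add {F G : UnitAddCircle → ℂ} (hF : MemLp F ⊤ haarAddCircle)
    (hG : MemLp G ⊤ haarAddCircle) (n : ℤ) :
    fourierCoeff (fun θ => F θ + G θ) n = fourierCoeff F n + fourierCoeff G n := by
  unfold fourierCoeff
  rw [← integral_add]
  · congr 1
    funext θ
    simp only [smul_eq_mul]
    ring
  · exact integrable_top (memLp_mul (memLp_cont (fourier (-n)).continuous) hF)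
  · exact integrable_top (memLp_mul (memLp_cont (fourier (-n)).continuous) hG)

lemma coeff_bound (F : UnitAddCircle → ℂ) (n : ℤ) :
    ‖fourierCoeff F n‖ ≤ ∫ θ, ‖F θ‖ ∂haarAddCircle := by
  unfold fourierCoeff
  refine (norm_integral_le_integral_norm _).trans (le_of_eq ?_)
  congr 1
  funext θ
  rw [norm_smul, fourier_apply, Circle.norm_coe, one_mul]

lemma summable_riesz (F : UnitAddCircle → ℂ) {z : ℂ} (hz : z ∈ disc) :
    Summable fun n : ℕ => fourierCoeff F (n : ℤ) * z ^ n := by
  have hz1 : ‖z‖ < 1 := by simpa [disc] using hz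
  refine Summable.of_norm_bounded
    (g := fun n : ℕ => (∫ θ, ‖F θ‖ ∂haarAddCircle) * ‖z‖ ^ n)
    ((summable_geometric_of_lt_one (norm_nonneg _) hz1).mul_left _) ?_
  intro n
  rw [norm_mul, norm_pow]
  exact mul_le_mul_of_nonneg_right (coeff_bound F n) (by positivity)

lemma toeplitz_add {f g : UnitAddCircle → ℂ} (hf : MemLp f ⊤ haarAddCircle)
    (hg : MemLp g ⊤ haarAddCircle) (p : Polynomial ℂ) {z : ℂ} (hz : z ∈ disc) :
    toeplitz (f + g) p z = toeplitz f p z + toeplitz g p z := by
  unfold toeplitz rieszProj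
  rw [← (summable_riesz _ hz).tsum_add (summable_riesz _ hz)]
  refine tsum_congr fun n => ?_
  rw [← add_mul]
  congr 1
  rw [← coeff_add (memLp_mul hf (memLp_cont (bdry_cont p)))
    (memLp_mul hg (memLp_cont (bdry_cont p)))]
  congr 1
  funext θ
  simp only [Pi.add_apply]
  ring

lemma toeplitz_smul (c : ℂ) (f : UnitAddCircle → ℂ) (p : Polynomial ℂ) (z : ℂ) :
    toeplitz (c • f) p z = c * toeplitz f p z := by
  unfold toeplitz rieszProj
  rw [← tsum_mul_left]
  refine tsum_congr fun n => ?_
  have h : fourierCoeff (fun θ => (c • f) θ * Polynomial.eval (fourier 1 θ : ℂ) p) (n : ℤ)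
      = c * fourierCoeff (fun θ => f θ * Polynomial.eval (fourier 1 θ : ℂ) p) (n : ℤ) := by
    unfold fourierCoeff
    rw [← integral_const_mul]
    congr 1
    funext θ
    simp only [Pi.smul_apply, smul_eq_mul]
    ring
  rw [h, mul_assoc]

lemma toeplitz_one (p : Polynomial ℂ) (z : ℂ) : toeplitz 1 p z = p.eval z := by
  have hc : ∀ n : ℕ, fourierCoeff (fun θ => (1 : UnitAddCircle → ℂ) θ
      * Polynomial.eval (fourier 1 θ : ℂ) p) (n : ℤ) = p.coeff n := by
    intro n
    rw [Pool.Agent.Helper145.Toep.fourierCoeff_eq_mom]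
    have h := Pool.Agent.Helper145.Toep.mom_bdry (G := fun _ => 1) continuous_const p (-(n : ℤ))
    refine h.trans ?_
    rw [Pool.Agent.Helper145.Toep.mom_one]
    have h2 : Pool.Agent.Helper145.Toep.evalW
        (fun m => Pool.Agent.Helper145.Toep.del (m + -(n : ℤ))) = Polynomial.lcoeff ℂ n := by
      refine Polynomial.lhom_ext' fun m => ?_
      ext
      simp only [LinearMap.comp_apply, Pool.Agent.Helper145.Toep.evalW_monomial, one_mul,
        Polynomial.lcoeff_apply, Polynomial.coeff_monomial]
      unfold Pool.Agent.Helper145.Toep.del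
      by_cases hmn : m = n
      · subst hmn; simp
      · rw [if_neg hmn, if_neg (by omega)]
    rw [h2, Polynomial.lcoeff_apply]
  unfold toeplitz rieszProj
  rw [Polynomial.eval_eq_sum_range]
  rw [tsum_eq_sum (s := Finset.range (p.natDegree + 1))]
  · exact Finset.sum_congr rfl fun n _ => by rw [hc n]
  · intro n hn
    rw [hc n, Polynomial.coeff_eq_zero_of_natDegree_lt (by simpa using hn), zero_mul]

/-- The symbol space as a linear subspace of the space of all functions. -/
noncomputable def stSub (X : Type) [NormedAddCommGroup X] [NormedSpace ℂ X]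
    (ev : X →ₗ[ℂ] (ℂ → ℂ)) : Submodule ℂ (UnitAddCircle → ℂ) where
  carrier := ST X ev
  add_mem' := by
    rintro f g ⟨hf, A, hA⟩ ⟨hg, B, hB⟩
    refine ⟨hf.add hg, A + B, fun p x hx z hz => ?_⟩
    rw [toeplitz_add hf hg p hz, ← hA p x hx z hz, ← hB p x hx z hz]
    simp
  zero_mem' := by
    refine ⟨MemLp.zero', 0, fun p x hx z hz => ?_⟩
    have h := toeplitz_smul 0 (0 : UnitAddCircle → ℂ) p z
    rw [zero_smul, zero_mul] at h
    rw [h]
    simp
  smul_mem' := by
    rintro c f ⟨hf, A, hA⟩
    refine ⟨hf.const_smul c, c • A, fun p x hx z hz => ?_⟩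
    rw [toeplitz_smul, ← hA p x hx z hz]
    simp

lemma one_mem (X : Type) [NormedAddCommGroup X] [NormedSpace ℂ X] (ev : X →ₗ[ℂ] (ℂ → ℂ)) :
    (1 : UnitAddCircle → ℂ) ∈ ST X ev := by
  refine ⟨memLp_cont continuous_one, ContinuousLinearMap.id ℂ X, fun p x hx z hz => ?_⟩
  rw [toeplitz_one]
  exact hx z hz

/-! ### polynomials with coefficients in a vector space -/

/-- A polynomial of degree at most `n` with coefficients `w k` in a vector space, whose values lie
in a subspace at more than `n` points, has all its coefficients in the subspace. -/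
lemma coeff_mem {V : Type} [AddCommGroup V] [Module ℂ V] (S : Submodule ℂ V) (n : ℕ)
    (w : ℕ → V) (T : Set ℂ) (hT : ∀ t ∈ T, ∑ k ∈ Finset.range (n + 1), t ^ k • w k ∈ S)
    (hcard : (n : ℕ∞) < T.encard) (k : ℕ) (hk : k ≤ n) : w k ∈ S := by
  obtain ⟨U, hUT, hU⟩ := Set.exists_subset_encard_eq (Order.add_one_le_of_lt hcard)
  have hUfin : U.Finite := Set.finite_of_encard_eq_coe (k := n + 1) (by rw [hU]; rfl)
  have hUcard : hUfin.toFinset.card = n + 1 := by
    have h1 := hUfin.encard_eq_coe_toFinset_card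
    rw [hU] at h1
    exact_mod_cast h1.symm
  rw [← Submodule.Quotient.mk_eq_zero]
  rw [← Module.forall_dual_apply_eq_zero_iff ℂ]
  intro φ
  have hP : (∑ j ∈ Finset.range (n + 1),
      Polynomial.C (φ (Submodule.Quotient.mk (w j))) * Polynomial.X ^ j : Polynomial ℂ) = 0 := by
    refine Polynomial.eq_zero_of_natDegree_lt_card_of_eval_eq_zero' _ hUfin.toFinset ?_ ?_
    · intro t ht
      have htT : t ∈ T := hUT (by simpa using ht)
      have h1 := hT t htT
      rw [← Submodule.Quotient.mk_eq_zero] at h1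
      have h2 := congrArg φ h1
      rw [map_zero] at h2
      rw [← h2]
      rw [show (Submodule.Quotient.mk (∑ k ∈ Finset.range (n + 1), t ^ k • w k) : V ⧸ S)
        = S.mkQ (∑ k ∈ Finset.range (n + 1), t ^ k • w k) from rfl, map_sum, map_sum,
        Polynomial.eval_finsetSum]
      refine Finset.sum_congr rfl fun j _ => ?_
      rw [map_smul, map_smul, smul_eq_mul, Polynomial.eval_mul, Polynomial.eval_C,
        Polynomial.eval_pow, Polynomial.eval_X, mul_comm]
      rfl
    · rw [hUcard]
      refine Nat.lt_succ_of_le (Polynomial.natDegree_sum_le_of_forall_le _ _ fun j hj => ?_)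
      exact (Polynomial.natDegree_C_mul_X_pow_le _ _).trans
        (Nat.lt_succ_iff.1 (Finset.mem_range.1 hj))
  have h3 := congrArg (fun P : Polynomial ℂ => P.coeff k) hP
  simp only [Polynomial.finsetSum_coeff, Polynomial.coeff_C_mul, Polynomial.coeff_X_pow,
    Polynomial.coeff_zero, mul_ite, mul_one, mul_zero] at h3
  rw [Finset.sum_ite_eq, if_pos (Finset.mem_range.2 (Nat.lt_succ_of_le hk))] at h3
  exact h3

/-- There are a Banach space `X` of analytic functions that satisfies conditions 1, 2, 3 of the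
problem and a continuous symbol `f ∈ ST(X)` such that

* `f² ∉ ST(X)`;
* for every polynomial `q` of degree at least two there are `s, t ∈ ℂ` with `q(s + t f) ∉ ST(X)`
  (although `s + t f ∈ ST(X)`): no polynomial of degree at least two operates on `ST(X)`;
* more precisely, if `q''(s) ≠ 0` then `q(s + t f) ∈ ST(X)` for at most `deg q` numbers `t`;
* for every `h ∈ ST(X)` one has `(h + t f)² ∈ ST(X)` for at most two numbers `t`. -/
theorem result : ∃ (X : Type) (_ : NormedAddCommGroup X) (_ : NormedSpace ℂ X)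
    (ev : X →ₗ[ℂ] (ℂ → ℂ)), Admissible X ev ∧ ∃ f : UnitAddCircle → ℂ, Continuous f ∧
      (∀ s t : ℂ, (fun θ => s + t * f θ) ∈ ST X ev) ∧
      f * f ∉ ST X ev ∧
      (∀ q : Polynomial ℂ, 2 ≤ q.natDegree →
        ∃ s t : ℂ, (fun θ => q.eval (s + t * f θ)) ∉ ST X ev) ∧
      (∀ (q : Polynomial ℂ) (s : ℂ), q.derivative.derivative.eval s ≠ 0 →
        {t : ℂ | (fun θ => q.eval (s + t * f θ)) ∈ ST X ev}.encard ≤ q.natDegree) ∧
      (∀ h ∈ ST X ev, {t : ℂ | (fun θ => (h θ + t * f θ) ^ 2) ∈ ST X ev}.encard ≤ 2) := by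
  obtain ⟨X, i1, i2, ev, hX, f0, g0, hf0, hg0, hf, hg, hfg⟩ := NotAlgebra.result
  -- polarisation
  obtain ⟨f, hfc, hfS, hff⟩ : ∃ f : UnitAddCircle → ℂ, Continuous f ∧ f ∈ stSub X ev ∧
      f * f ∉ stSub X ev := by
    by_contra hcon
    push Not at hcon
    have h1 := hcon f0 hf0 hf
    have h2 := hcon g0 hg0 hg
    have h3 := hcon (f0 + g0) (hf0.add hg0) ((stSub X ev).add_mem hf hg)
    apply hfg
    have h4 : f0 * g0 = (1 / 2 : ℂ) • ((f0 + g0) * (f0 + g0) - f0 * f0 - g0 * g0) := by
      funext θ
      simp only [Pi.mul_apply, Pi.smul_apply, Pi.sub_apply, Pi.add_apply, smul_eq_mul]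
      ring
    have h5 : f0 * g0 ∈ stSub X ev := by
      rw [h4]
      exact (stSub X ev).smul_mem _ ((stSub X ev).sub_mem ((stSub X ev).sub_mem h3 h1) h2)
    exact h5
  have key : ∀ (q : Polynomial ℂ) (s : ℂ), q.derivative.derivative.eval s ≠ 0 →
      {t : ℂ | (fun θ => q.eval (s + t * f θ)) ∈ ST X ev}.encard ≤ q.natDegree := by
    intro q s hs
    by_contra hlt
    push Not at hlt
    have hder : (Polynomial.taylor s q).coeff 2 ≠ 0 := by
      rw [Polynomial.taylor_coeff]
      intro h0
      apply hs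
      have h1 : Nat.factorial 2 • Polynomial.hasseDeriv 2 q = q.derivative.derivative :=
        congrFun (Polynomial.factorial_smul_hasseDeriv (R := ℂ) (k := 2)) q
      rw [← h1, Polynomial.eval_smul, h0, smul_zero]
    have hdeg : 2 ≤ q.natDegree := by
      by_contra hd
      apply hder
      apply Polynomial.coeff_eq_zero_of_natDegree_lt
      rw [Polynomial.natDegree_taylor]
      omega
    have h2 := coeff_mem (stSub X ev) q.natDegree
      (fun k => (Polynomial.taylor s q).coeff k • (f ^ k)) _ (fun t ht => ?_) hlt 2 hdeg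
    · have h3 := (stSub X ev).smul_mem ((Polynomial.taylor s q).coeff 2)⁻¹ h2
      rw [smul_smul, inv_mul_cancel₀ hder, one_smul, pow_two] at h3
      exact hff h3
    · have h4 : (∑ k ∈ Finset.range (q.natDegree + 1),
          t ^ k • (Polynomial.taylor s q).coeff k • f ^ k) = fun θ => q.eval (s + t * f θ) := by
        funext θ
        have h5 : q.eval (s + t * f θ) = (Polynomial.taylor s q).eval (t * f θ) := by
          rw [Polynomial.taylor_eval, add_comm]
        rw [h5, Polynomial.eval_eq_sum_range, Polynomial.natDegree_taylor, Finset.sum_apply]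
        refine Finset.sum_congr rfl fun k _ => ?_
        simp only [Pi.smul_apply, Pi.pow_apply, smul_eq_mul]
        ring
      rw [h4]
      exact ht
  refine ⟨X, i1, i2, ev, hX, f, hfc, ?_, hff, ?_, key, ?_⟩
  · intro s t
    have h1 : (fun θ => s + t * f θ) = s • (1 : UnitAddCircle → ℂ) + t • f := by
      funext θ
      simp
    rw [h1]
    exact (stSub X ev).add_mem ((stSub X ev).smul_mem s (one_mem X ev))
      ((stSub X ev).smul_mem t hfS)
  · intro q hq
    have hne : q.derivative.derivative ≠ 0 := by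
      intro h0
      have h1 : q.derivative.derivative.coeff (q.natDegree - 2) = 0 := by rw [h0, Polynomial.coeff_zero]
      rw [Polynomial.coeff_derivative, Polynomial.coeff_derivative,
        show q.natDegree - 2 + 1 + 1 = q.natDegree by omega] at h1
      have h2 : q.coeff q.natDegree ≠ 0 := by
        rw [Polynomial.coeff_natDegree, Ne, Polynomial.leadingCoeff_eq_zero]
        rintro rfl
        simp at hq
      have h3 : ((q.natDegree - 2 + 1 : ℕ) : ℂ) + 1 ≠ 0 := Nat.cast_add_one_ne_zero _
      have h4 : ((q.natDegree - 2 : ℕ) : ℂ) + 1 ≠ 0 := Nat.cast_add_one_ne_zero _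
      exact (mul_ne_zero (mul_ne_zero h2 h3) h4) h1
    obtain ⟨s, hs⟩ : ∃ s : ℂ, q.derivative.derivative.eval s ≠ 0 := by
      by_contra hcon
      push Not at hcon
      exact hne (Polynomial.funext fun r => by rw [hcon r, Polynomial.eval_zero])
    have h3 := key q s hs
    by_contra hcon
    push Not at hcon
    have h4 : {t : ℂ | (fun θ => q.eval (s + t * f θ)) ∈ ST X ev} = Set.univ := by
      ext t
      simp [hcon s t]
    rw [h4, Set.encard_eq_top Set.infinite_univ] at h3
    exact absurd h3 (by simp)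
  · intro h hh
    by_contra hlt
    push Not at hlt
    have h2 := coeff_mem (stSub X ev) 2
      (fun k => if k = 0 then h * h else if k = 1 then (2 : ℂ) • (h * f) else f * f) _
      (fun t ht => ?_) hlt 2 le_rfl
    · simp only [OfNat.ofNat_ne_zero, OfNat.ofNat_ne_one, if_false] at h2
      exact hff h2
    · have h4 : (∑ k ∈ Finset.range (2 + 1), t ^ k • (fun k => if k = 0 then h * h
          else if k = 1 then (2 : ℂ) • (h * f) else f * f) k) = fun θ => (h θ + t * f θ) ^ 2 := by
        funext θ
        simp [Finset.sum_range_succ]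
        ring
      rw [h4]
      exact ht

end Pool.Agent.Results.MP_3f635c_an.NoPolynomialOperates
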